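import Pool.Agent.MP_343cc6_co.Mg.Neg

set_option autoImplicit false

namespace Pool.Agent.Results.MP_343cc6_co.PerfectFactor

open Pool.Agent.MP_343cc6_co

/-- The cyclic distance `min (|i - j|, N - |i - j|)` of two indices of the `N` vertices. -/
def rho {N : ℕ} (i j : Fin N) : ℕ := min (Nat.dist i.val j.val) (N - Nat.dist i.val j.val)

/-- `F` is a perfect `L`-factor of the complete graph on `Fin N` with isolated vertex `m`. -/
structure IsPerfectFactor {N : ℕ} (F : SimpleGraph (Fin N)) (m : Fin N) : Prop where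
  /-- the vertex `m` is isolated -/
  isolated : (F.neighborSet m).ncard = 0
  /-- every other vertex has degree one -/
  degree_one : ∀ v, v ≠ m → (F.neighborSet v).ncard = 1
  /-- (1) no two edges have equal length -/
  lengths : ∀ i j k l, F.Adj i j → F.Adj k l → s(i, j) ≠ s(k, l) → rho i j ≠ rho k l
  /-- (2) no two edges are parallel, under any naming of their endpoints -/
  edges : ∀ i j k l, F.Adj i j → F.Adj k l → s(i, j) ≠ s(k, l) → rho i k ≠ rho j l
  /-- (3) no edge is parallel to the isolated vertex -/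
  vertex : ∀ i j, F.Adj i j → rho i m ≠ rho j m

theorem rho_eq {k : ℕ} (a b : Fin (k + 1)) : rho a b = min (a - b).val (b - a).val := by
  unfold rho Nat.dist
  have ha := a.isLt
  have hb := b.isLt
  rcases lt_trichotomy a b with h | h | h
  · have h1 := Fin.coe_sub_iff_lt.mpr h
    have h2 := Fin.coe_sub_iff_le.mpr h.le
    have h3 : a.val < b.val := h
    rw [h1, h2]; omega
  · subst h; simp
  · have h1 := Fin.coe_sub_iff_lt.mpr h
    have h2 := Fin.coe_sub_iff_le.mpr h.le
    have h3 : b.val < a.val := h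
    rw [h1, h2]; omega

theorem ncard_one {V : Type} (F : SimpleGraph V) (v : V) :
    (F.neighborSet v).ncard = 1 ↔ ∃! w, F.Adj v w := by
  rw [Set.ncard_eq_one]
  constructor
  · rintro ⟨w, hw⟩
    refine ⟨w, ?_, fun y hy => ?_⟩
    · have : w ∈ F.neighborSet v := by rw [hw]; rfl
      exact this
    · have : y ∈ F.neighborSet v := hy
      rw [hw] at this
      exact this
  · rintro ⟨w, hw, hu⟩
    refine ⟨w, Set.ext fun y => ⟨fun hy => hu y hy, fun hy => ?_⟩⟩
    rw [Set.mem_singleton_iff.mp hy]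
    exact hw

theorem perfect_of {k : ℕ} (F : SimpleGraph (Fin (k + 1))) (m : Fin (k + 1))
    (h : IsPerfectFactor F m) : Pool.Agent.MP_343cc6_co.Perfect (k + 1) := by
  refine ⟨F, m, fun w hw => ?_, fun v hv => (ncard_one F v).mp (h.degree_one v hv),
    fun a b x y h1 h2 e => ?_, fun a b x y h1 h2 e => ?_, fun a b h1 e => ?_⟩
  · have h0 := (Set.ncard_eq_zero (Set.toFinite _)).mp h.isolated
    have : w ∈ F.neighborSet m := hw
    rw [h0] at this
    exact this
  · by_contra hc
    exact h.lengths a b x y h1 h2 (fun e' => hc (Sym2.eq_iff.mp e'))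
      ((rho_eq a b).trans (Eq.trans e (rho_eq x y).symm))
  · by_contra hc
    exact h.edges a b x y h1 h2 (fun e' => hc (Sym2.eq_iff.mp e'))
      ((rho_eq a x).trans (Eq.trans e (rho_eq b y).symm))
  · exact h.vertex a b h1 ((rho_eq a m).trans (Eq.trans e (rho_eq b m).symm))

theorem of_perfect {k : ℕ} (h : Pool.Agent.MP_343cc6_co.Perfect (k + 1)) (m : Fin (k + 1)) :
    ∃ F : SimpleGraph (Fin (k + 1)), IsPerfectFactor F m := by
  obtain ⟨M, c, h1, h2, h3, h4, h5⟩ := h
  let t : ZMod (k + 1) := c - (show ZMod (k + 1) from m)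
  let T : ZMod (k + 1) → ZMod (k + 1) := fun v => v + t
  have Tm : T m = c := by simp [T, t]
  have Tinj : Function.Injective T := fun a b e => add_right_cancel e
  have Tsub : ∀ a b : ZMod (k + 1), T a - T b = a - b := fun a b => by simp [T]
  have Tsur : ∀ w, T (w - t) = w := fun w => by simp [T]
  have key : ∀ a b : Fin (k + 1), rho a b = min (T a - T b).val (T b - T a).val := by
    intro a b
    rw [Tsub, Tsub]
    exact rho_eq a b
  have back : ∀ a b x y : Fin (k + 1), (T a = T x ∧ T b = T y) ∨ (T a = T y ∧ T b = T x) →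
      s(a, b) = s(x, y) := by
    intro a b x y e
    refine Sym2.eq_iff.mpr ?_
    rcases e with e | e
    · exact Or.inl ⟨Tinj e.1, Tinj e.2⟩
    · exact Or.inr ⟨Tinj e.1, Tinj e.2⟩
  refine ⟨M.comap T, ?_, fun v hv => ?_, fun a b x y e1 e2 hne e => ?_,
    fun a b x y e1 e2 hne e => ?_, fun a b e1 e => ?_⟩
  · refine (Set.ncard_eq_zero (Set.toFinite _)).mpr (Set.eq_empty_of_forall_notMem fun w hw => ?_)
    have : M.Adj (T m) (T w) := hw
    rw [Tm] at this
    exact h1 _ this
  · refine (ncard_one _ v).mpr ?_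
    obtain ⟨w, hw, hu⟩ := h2 (T v) (fun e => hv (Tinj (e.trans Tm.symm)))
    refine ⟨w - t, ?_, fun y hy => Tinj ((hu _ hy).trans (Tsur w).symm)⟩
    show M.Adj (T v) (T (w - t))
    rw [Tsur]
    exact hw
  · exact hne (back _ _ _ _ (h3 _ _ _ _ e1 e2 ((key a b).symm.trans (e.trans (key x y)))))
  · exact hne (back _ _ _ _ (h4 _ _ _ _ e1 e2 ((key a x).symm.trans (e.trans (key b y)))))
  · have := h5 _ _ e1
    rw [← Tm] at this
    exact this ((key a m).symm.trans (e.trans (key b m)))

theorem transfer {g : ℕ} (hg : 0 < g) (m : Fin g) :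
    (∃ F : SimpleGraph (Fin g), IsPerfectFactor F m) ↔ Pool.Agent.MP_343cc6_co.Perfect g := by
  obtain ⟨k, rfl⟩ : ∃ k, g = k + 1 := ⟨g - 1, by omega⟩
  exact ⟨fun ⟨F, h⟩ => perfect_of F m h, fun h => of_perfect h m⟩

/-- For `n ≥ 2` and every vertex `m` of `K_{2n-1}`: a perfect `L_n`-factor with isolated vertex `m`
exists if and only if `n ≥ 4` and `n ≠ 5`. -/
theorem result (n : ℕ) (hn : 2 ≤ n) (m : Fin (2 * n - 1)) :
    (∃ F : SimpleGraph (Fin (2 * n - 1)), IsPerfectFactor F m) ↔ (4 ≤ n ∧ n ≠ 5) := by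
  rw [transfer (by omega) m]
  constructor
  · intro h
    by_contra hcon
    have : n = 2 ∨ n = 3 ∨ n = 5 := by omega
    rcases this with rfl | rfl | rfl
    · exact not_perfect3 h
    · exact not_perfect5 h
    · exact not_perfect9 h
  · intro h
    exact perfect_all _ (by omega) (by omega) (by omega)

end Pool.Agent.Results.MP_343cc6_co.PerfectFactor
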